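import Pool.Agent.R409.RD.Lim

/-!
# Zeta functions: Euler products `∏ (1 - q_x^{-s})⁻¹`
-/

set_option autoImplicit false

namespace Pool.Agent.R409.RD

open Complex MeasureTheory Filter Topology Set
open Pool.Agent.W189.ML Pool.Agent.W189.LC Pool.Agent.W187.UR Pool.Agent.R409.RC

variable {P : Type} {d : ℝ} {q : P → ℝ} {F : ℂ → ℂ}

/-- norms of closed points -/
structure CD (d : ℝ) (q : P → ℝ) : Prop where
  d_nonneg : 0 ≤ d
  two_le : ∀ v, 2 ≤ q v
  sum : ∀ σ : ℝ, d < σ → Summable fun v => q v ^ (-σ)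

/-- the coefficients `q^{-k s₀} / k` -/
noncomputable def cC (s₀ : ℝ) (q : P → ℝ) (x : P × ℕ) : ℝ :=
  Real.exp (-(s₀ * fr q x)) / (x.2 + 1)

lemma CD.q_pos (E : CD d q) (v : P) : 0 < q v := by linarith [E.two_le v]

lemma CD.log_pos (E : CD d q) (v : P) : 0 < Real.log (q v) :=
  Real.log_pos (by linarith [E.two_le v])

lemma CD.fr_nonneg (E : CD d q) (x : P × ℕ) : 0 ≤ fr q x := by
  unfold fr
  have := E.log_pos x.1
  positivity

lemma CD.exp_fr (E : CD d q) (σ : ℝ) (x : P × ℕ) :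
    Real.exp (-(σ * fr q x)) = (q x.1 ^ (-σ)) ^ (x.2 + 1) := by
  have hq0 := E.q_pos x.1
  rw [← Real.rpow_natCast, ← Real.rpow_mul hq0.le, Real.rpow_def_of_pos hq0]
  unfold fr
  congr 1
  push_cast
  ring

theorem CD.summable (E : CD d q) (s₀ : ℝ) {σ : ℝ} (hσ : d - s₀ < σ) :
    Summable fun x : P × ℕ => |cC s₀ q x| * Real.exp (-(σ * fr q x)) := by
  set τ : ℝ := σ + s₀ with hτ
  have hτd : d < τ := by rw [hτ]; linarith
  have hτ0 : 0 < τ := lt_of_le_of_lt E.d_nonneg hτd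
  set b : ℝ := (2 : ℝ) ^ (-τ) with hb
  have hb0 : 0 ≤ b := Real.rpow_nonneg (by norm_num) _
  have hb1 : b < 1 := Real.rpow_lt_one_of_one_lt_of_neg (by norm_num) (by linarith)
  have hqb : ∀ v, q v ^ (-τ) ≤ b := fun v =>
    Real.rpow_le_rpow_of_nonpos (by norm_num) (E.two_le v) (by linarith)
  have hg : Summable fun n : ℕ => b ^ n := summable_geometric_of_lt_one hb0 hb1
  have h1 := (E.sum τ hτd).mul_of_nonneg hg
    (fun v => Real.rpow_nonneg (E.q_pos v).le _) (fun n => by positivity)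
  refine Summable.of_nonneg_of_le (fun x => by positivity) (fun x => ?_) h1
  have h2 : 0 ≤ q x.1 ^ (-τ) := Real.rpow_nonneg (E.q_pos x.1).le _
  unfold cC
  rw [abs_of_nonneg (by positivity), div_mul_eq_mul_div, ← Real.exp_add]
  have h3 : -(s₀ * fr q x) + -(σ * fr q x) = -(τ * fr q x) := by rw [hτ]; ring
  rw [h3, E.exp_fr]
  calc (q x.1 ^ (-τ)) ^ (x.2 + 1) / ((x.2 : ℝ) + 1) ≤ (q x.1 ^ (-τ)) ^ (x.2 + 1) := by
        refine div_le_self (by positivity) ?_
        linarith [(Nat.cast_nonneg x.2 : (0 : ℝ) ≤ x.2)]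
    _ = q x.1 ^ (-τ) * (q x.1 ^ (-τ)) ^ x.2 := by rw [pow_succ]; ring
    _ ≤ q x.1 ^ (-τ) * b ^ x.2 := mul_le_mul_of_nonneg_left (pow_le_pow_left₀ h2 (hqb _) _) h2

theorem CD.factor_sum (E : CD d q) (s₀ : ℝ) {w : ℂ} (hw : d - s₀ < w.re) (v : P) :
    HasSum (fun n : ℕ => (cC s₀ q (v, n) : ℂ) * exp (-(w * fr q (v, n))))
      (-log (1 - (q v : ℂ) ^ (-(s₀ + w)))) ∧ ‖(q v : ℂ) ^ (-(s₀ + w))‖ < 1 := by
  have hq0 := E.q_pos v
  have hqc : (q v : ℂ) ≠ 0 := by exact_mod_cast hq0.ne'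
  have hn : ‖(q v : ℂ) ^ (-(s₀ + w))‖ < 1 := by
    rw [Complex.norm_cpow_eq_rpow_re_of_pos hq0]
    refine Real.rpow_lt_one_of_one_lt_of_neg (by linarith [E.two_le v]) ?_
    rw [Complex.neg_re, Complex.add_re, Complex.ofReal_re]
    linarith [E.d_nonneg]
  refine ⟨?_, hn⟩
  have := Complex.hasSum_taylorSeries_neg_log hn
  rw [← hasSum_nat_add_iff' 1] at this
  simp only [Finset.range_one, Finset.sum_singleton, pow_zero, Nat.cast_zero, div_zero, sub_zero]
    at this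
  refine this.congr_fun fun n => ?_
  unfold cC
  have e1 : ((q v : ℂ) ^ (-(s₀ + w))) ^ (n + 1) =
      exp (-(s₀ * fr q (v, n))) * exp (-(w * fr q (v, n))) := by
    rw [Complex.cpow_def_of_ne_zero hqc, ← Complex.exp_nat_mul, ← Complex.exp_add]
    congr 1
    unfold fr
    rw [← Complex.ofReal_log hq0.le]
    push_cast
    ring
  rw [e1]
  push_cast
  ring

theorem CD.hasProd (E : CD d q) (s₀ : ℝ) {w : ℂ} (hw : d - s₀ < w.re) :
    HasProd (fun v => (1 - (q v : ℂ) ^ (-(s₀ + w)))⁻¹) (exp (ser (fr q) (cC s₀ q) w)) := by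
  have hcs : Summable fun x : P × ℕ => (cC s₀ q x : ℂ) * exp (-(w * fr q x)) := by
    refine Summable.of_norm_bounded (E.summable s₀ hw) fun x => ?_
    rw [norm_mul, Complex.norm_real, Real.norm_eq_abs, Complex.norm_exp]
    have : (-(w * fr q x)).re = -(w.re * fr q x) := by rw [Complex.neg_re, Complex.re_mul_ofReal]
    rw [this]
  have h1 : HasSum (fun x : P × ℕ => (cC s₀ q x : ℂ) * exp (-(w * fr q x)))
      (ser (fr q) (cC s₀ q) w) := hcs.hasSum
  have h2 := h1.prod_fiberwise (fun v => (E.factor_sum s₀ hw v).1)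
  have h3 := h2.cexp
  refine h3.congr_fun fun v => ?_
  have h4 := (E.factor_sum s₀ hw v).2
  have hne : 1 - (q v : ℂ) ^ (-(s₀ + w)) ≠ 0 := by
    intro h
    rw [sub_eq_zero] at h
    rw [← h] at h4
    simp at h4
  simp only [Function.comp_apply]
  rw [Complex.exp_neg, Complex.exp_log hne]

/-- the data of the abstract law at the point `s₀` -/
theorem CD.gd (E : CD d q) (s₀ : ℝ)
    (hmer : ∀ x : ℝ, s₀ ≤ x → x ≤ d → MeromorphicAt F (x : ℂ))
    (hF : ∀ s : ℂ, d < s.re → F s = ∏' v, (1 - (q v : ℂ) ^ (-s))⁻¹) :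
    GD (d - s₀) (fr q) (cC s₀ q) (fun s => F (s₀ + s)) where
  lam_nonneg := E.fr_nonneg
  sum := fun σ hσ => E.summable s₀ hσ
  mero := fun x h0 h1 => by
    have h3 : MeromorphicAt F ((s₀ : ℂ) + (x : ℂ)) := by
      have := hmer (s₀ + x) (by linarith) (by linarith)
      push_cast at this
      exact this
    exact h3.comp_analyticAt (g := fun w : ℂ => (s₀ : ℂ) + w) (by fun_prop)
  eq := fun w hw => by
    rw [hF (s₀ + w) (by
      rw [Complex.add_re, Complex.ofReal_re]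
      linarith), (E.hasProd s₀ hw).tprod_eq]

lemma CD.finite_q (E : CD d q) (B : ℝ) : {v : P | q v ≤ B}.Finite := by
  by_cases hB : B < 2
  · refine Set.Finite.subset Set.finite_empty fun v hv => ?_
    have := E.two_le v
    have h2 : q v ≤ B := hv
    linarith
  · push Not at hB
    have h1 := (E.sum (d + 1) (by linarith)).tendsto_cofinite_zero
    have h2 : (0 : ℝ) < B ^ (-(d + 1)) := Real.rpow_pos_of_pos (by linarith) _
    have h3 := h1.eventually (gt_mem_nhds h2)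
    rw [Filter.eventually_cofinite] at h3
    refine h3.subset fun v hv => ?_
    show ¬ q v ^ (-(d + 1)) < B ^ (-(d + 1))
    rw [not_lt]
    exact Real.rpow_le_rpow_of_nonpos (E.q_pos v) hv (by linarith [E.d_nonneg])

lemma CD.countable (E : CD d q) : Countable P := by
  have h1 : (Set.univ : Set P) = ⋃ n : ℕ, {v : P | q v ≤ n} := by
    ext v
    simp only [Set.mem_univ, Set.mem_iUnion, true_iff]
    obtain ⟨n, hn⟩ := exists_nat_ge (q v)
    exact ⟨n, hn⟩
  have h2 : (Set.univ : Set P).Countable := by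
    rw [h1]
    exact Set.countable_iUnion fun n => (E.finite_q n).countable
  exact Set.countable_univ_iff.1 h2

lemma CD.finite_fr (E : CD d q) (Y : ℝ) : {x : P × ℕ | fr q x ≤ Y}.Finite := by
  have h1 : {x : P × ℕ | fr q x ≤ Y} ⊆ {v : P | q v ≤ Real.exp Y} ×ˢ
      {k : ℕ | k ≤ ⌈Y / Real.log 2⌉₊} := by
    rintro ⟨v, k⟩ hx
    have hx' : ((k : ℝ) + 1) * Real.log (q v) ≤ Y := hx
    have hq := E.two_le v
    have hl2 : 0 < Real.log 2 := Real.log_pos (by norm_num)
    have hl : Real.log 2 ≤ Real.log (q v) := Real.log_le_log (by norm_num) hq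
    have hk : (0 : ℝ) ≤ k := k.cast_nonneg
    constructor
    · show q v ≤ Real.exp Y
      have : Real.log (q v) ≤ Y := by nlinarith
      calc q v = Real.exp (Real.log (q v)) := (Real.exp_log (E.q_pos v)).symm
        _ ≤ _ := Real.exp_le_exp.2 this
    · show k ≤ ⌈Y / Real.log 2⌉₊
      have h3 : (k : ℝ) ≤ Y / Real.log 2 := by
        rw [le_div_iff₀ hl2]
        nlinarith
      exact_mod_cast h3.trans (Nat.le_ceil _)
  exact ((E.finite_q _).prod (Set.finite_le_nat _)).subset h1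

/-- the terms `κ_γ(k log q / T) q^{-k s₀} / k` -/
noncomputable def cterm (s₀ : ℝ) (q : P → ℝ) (γ T : ℝ) (v : P) (k : ℕ) : ℂ :=
  ((q v ^ (-s₀) : ℝ) : ℂ) ^ k / k * exp ((γ * (k * Real.log (q v) / T) : ℝ) * I) *
    (om (k * Real.log (q v) / T) : ℂ)

/-- the finite sum as a sum over the pairs `(x, k)` with `q_x^k ≤ exp (exp (θ T))` -/
theorem CD.gsum_eq (E : CD d q) (s₀ θ γ T : ℝ) : gsum (fr q) (cC s₀ q) θ γ T =
    ∑ᶠ x ∈ {x : P × ℕ | 1 ≤ x.2 ∧ q x.1 ^ x.2 ≤ Real.exp (Real.exp (θ * T))},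
      cterm s₀ q γ T x.1 x.2 := by
  have hset : {x : P × ℕ | 1 ≤ x.2 ∧ q x.1 ^ x.2 ≤ Real.exp (Real.exp (θ * T))} =
      (fun x : P × ℕ => (x.1, x.2 + 1)) '' {x | fr q x ≤ Real.exp (θ * T)} := by
    ext ⟨v, k⟩
    simp only [Set.mem_setOf_eq, Set.mem_image, Prod.mk.injEq, Prod.exists]
    have hlog : ∀ k : ℕ, q v ^ k ≤ Real.exp (Real.exp (θ * T)) ↔
        (k : ℝ) * Real.log (q v) ≤ Real.exp (θ * T) := by
      intro k
      rw [← Real.log_le_iff_le_exp (pow_pos (E.q_pos v) k), Real.log_pow]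
    constructor
    · rintro ⟨h1, h2⟩
      refine ⟨v, k - 1, ?_, rfl, by omega⟩
      unfold fr
      simp only
      have : ((k - 1 : ℕ) : ℝ) + 1 = k := by
        rw [Nat.cast_sub h1]
        push_cast
        ring
      rw [this]
      exact (hlog k).1 h2
    · rintro ⟨v', k', h1, rfl, rfl⟩
      refine ⟨by omega, (hlog _).2 ?_⟩
      push_cast
      exact h1
  rw [hset, finsum_mem_image]
  · have h1 : ∀ x : P × ℕ, cterm s₀ q γ T (x.1, x.2 + 1).1 (x.1, x.2 + 1).2 =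
        (cC s₀ q x : ℂ) * exp ((γ * (fr q x / T) : ℝ) * I) * (om (fr q x / T) : ℂ) := by
      intro x
      unfold cterm cC
      rw [E.exp_fr]
      unfold fr
      push_cast
      rfl
    simp only [h1]
    unfold gsum
    rw [tsum_eq_finsum]
    · refine finsum_congr fun x => ?_
      rw [Set.mem_setOf_eq]
      by_cases hx : fr q x ≤ Real.exp (θ * T)
      · rw [if_pos hx, finsum_eq_if, if_pos hx]
      · rw [if_neg hx, finsum_eq_if, if_neg hx]
    · refine (E.finite_fr (Real.exp (θ * T))).subset fun x hx => ?_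
      rw [Function.mem_support] at hx
      show fr q x ≤ Real.exp (θ * T)
      by_contra h
      rw [if_neg h] at hx
      exact hx rfl
  · rintro ⟨v, k⟩ _ ⟨v', k'⟩ _ h
    simp only [Prod.mk.injEq] at h ⊢
    exact ⟨h.1, by omega⟩

end Pool.Agent.R409.RD
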