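import Pool.Agent.R409.RC.Seq
import Pool.Agent.W187.S2.Stm

/-!
# The phase-shifted finite sums at any real point

`Φ = exp (∑ c_x e^{-w λ_x})` to the right of `κ`, meromorphic on the real segment `[0, κ]`. The order and
the leading coefficient of `Φ` at `0` from the sums over `λ_x ≤ exp (θ T)`, `θ > κ`.
-/

set_option autoImplicit false

namespace Pool.Agent.R409.RD

open Complex MeasureTheory Filter Topology Set
open Pool.Agent.W189.ML Pool.Agent.W189.LC Pool.Agent.W187.UR Pool.Agent.R409.RC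

variable {ι : Type} {lam c : ι → ℝ} {Φ : ℂ → ℂ} {κ : ℝ}

/-- the data: a real Dirichlet series `∑ c_x e^{-w λ_x}` which converges absolutely for `Re w > κ`, and a
function `Φ` which is the exponential of the series there and is meromorphic on `[0, κ]` -/
structure GD (κ : ℝ) (lam c : ι → ℝ) (Φ : ℂ → ℂ) : Prop where
  lam_nonneg : ∀ x, 0 ≤ lam x
  sum : ∀ σ : ℝ, κ < σ → Summable fun x => |c x| * Real.exp (-(σ * lam x))
  mero : ∀ x : ℝ, 0 ≤ x → x ≤ κ → MeromorphicAt Φ (x : ℂ)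
  eq : ∀ w : ℂ, κ < w.re → Φ w = exp (ser lam c w)

theorem GD.ser_diff (D : GD κ lam c Φ) {w : ℂ} (hw : κ < w.re) : AnalyticAt ℂ (ser lam c) w := by
  set σ : ℝ := (κ + w.re) / 2 with hσ
  have hσ1 : κ < σ := by rw [hσ]; linarith
  have hσw : σ < w.re := by rw [hσ]; linarith
  have hopen : IsOpen {z : ℂ | σ < z.re} := isOpen_lt continuous_const Complex.continuous_re
  have h1 : DifferentiableOn ℂ (ser lam c) {z : ℂ | σ < z.re} := by
    unfold ser
    refine differentiableOn_tsum_of_summable_norm (D.sum σ hσ1) (fun i => ?_) hopen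
      (fun i z hz => ?_)
    · exact Differentiable.differentiableOn (by fun_prop)
    · rw [norm_mul, Complex.norm_real, Real.norm_eq_abs, Complex.norm_exp]
      refine mul_le_mul_of_nonneg_left ?_ (abs_nonneg _)
      apply Real.exp_le_exp.2
      have h2 : (-(z * lam i)).re = -(z.re * lam i) := by rw [Complex.neg_re, Complex.re_mul_ofReal]
      rw [h2]
      have hz' : σ < z.re := hz
      have := D.lam_nonneg i
      nlinarith
  exact h1.analyticAt (hopen.mem_nhds hσw)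

theorem GD.analytic (D : GD κ lam c Φ) {w : ℂ} (hw : κ < w.re) : AnalyticAt ℂ Φ w := by
  have hopen : IsOpen {z : ℂ | κ < z.re} := isOpen_lt continuous_const Complex.continuous_re
  refine ((D.ser_diff hw).cexp).congr ?_
  filter_upwards [hopen.mem_nhds hw] with z hz
  exact (D.eq z hz).symm

theorem GD.order_right (D : GD κ lam c Φ) {w : ℂ} (hw : κ < w.re) : meromorphicOrderAt Φ w = 0 := by
  rw [(D.analytic hw).meromorphicOrderAt_eq, (D.analytic hw).analyticOrderAt_eq_zero.2 (by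
    rw [D.eq w hw]; exact Complex.exp_ne_zero _)]
  rfl

theorem GD.mer (D : GD κ lam c Φ) {x : ℝ} (hx : 0 ≤ x) : MeromorphicAt Φ (x : ℂ) := by
  by_cases h : x ≤ κ
  · exact D.mero x hx h
  · exact (D.analytic (by rw [Complex.ofReal_re]; exact not_le.1 h)).meromorphicAt

/-- the scaling -/
theorem order_scale (Φ : ℂ → ℂ) {k : ℝ} (hk : k ≠ 0) (x : ℂ) :
    meromorphicOrderAt (fun w => Φ (k * w)) x = meromorphicOrderAt Φ (k * x) := by
  have hkc : (k : ℂ) ≠ 0 := by exact_mod_cast hk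
  have h1 : AnalyticAt ℂ (fun w : ℂ => (k : ℂ) * w) x := by fun_prop
  have h2 : deriv (fun w : ℂ => (k : ℂ) * w) x ≠ 0 := by
    rw [deriv_const_mul_field, deriv_id'', mul_one]
    exact hkc
  exact meromorphicOrderAt_comp_of_deriv_ne_zero (f := Φ) h1 h2

theorem coeff_scale {Φ : ℂ → ℂ} {k : ℝ} (hk : k ≠ 0) {m : ℤ} (hΦ : MeromorphicAt Φ 0)
    (hm : meromorphicOrderAt Φ 0 = m) :
    meromorphicTrailingCoeffAt (fun w => Φ (k * w)) 0 =
      (k : ℂ) ^ m * meromorphicTrailingCoeffAt Φ 0 := by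
  have hkc : (k : ℂ) ≠ 0 := by exact_mod_cast hk
  obtain ⟨g, hg, hg0, he⟩ := (meromorphicOrderAt_eq_int_iff hΦ).1 hm
  have h1 : meromorphicTrailingCoeffAt Φ 0 = g 0 :=
    hg.meromorphicTrailingCoeffAt_of_ne_zero_of_eq_nhdsNE hg0 he
  have hmap : Tendsto (fun w : ℂ => (k : ℂ) * w) (𝓝[≠] 0) (𝓝[≠] 0) := by
    refine tendsto_nhdsWithin_iff.2 ⟨?_, ?_⟩
    · have : Tendsto (fun w : ℂ => (k : ℂ) * w) (𝓝 0) (𝓝 ((k : ℂ) * 0)) :=
        (continuous_const.mul continuous_id).tendsto 0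
      rw [mul_zero] at this
      exact this.mono_left nhdsWithin_le_nhds
    · filter_upwards [self_mem_nhdsWithin] with w hw
      exact mul_ne_zero hkc hw
  have h2 : ∀ᶠ w in 𝓝[≠] (0 : ℂ), Φ (k * w) = (w - 0) ^ m • ((k : ℂ) ^ m * g (k * w)) := by
    filter_upwards [hmap.eventually he] with w hw
    rw [hw, smul_eq_mul, smul_eq_mul, sub_zero, sub_zero, mul_zpow]
    ring
  have h3 : AnalyticAt ℂ (fun w : ℂ => (k : ℂ) ^ m * g (k * w)) 0 := by
    have h4 : AnalyticAt ℂ (fun w : ℂ => g (k * w)) 0 := by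
      refine AnalyticAt.fun_comp (g := g) (f := fun w : ℂ => (k : ℂ) * w) ?_ (by fun_prop)
      rw [mul_zero]
      exact hg
    exact analyticAt_const.mul h4
  have h4 := h3.meromorphicTrailingCoeffAt_of_ne_zero_of_eq_nhdsNE (n := m) (by
    rw [mul_zero]
    exact mul_ne_zero (zpow_ne_zero _ hkc) hg0) h2
  rw [h4, h1, mul_zero]

/-- the scaled data -/
theorem GD.mdata (D : GD κ lam c Φ) {k : ℝ} (hk : 0 < k) (hkκ : κ ≤ k) :
    MData (fun x => k * lam x) c (fun w => Φ (k * w)) where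
  lam_pos := fun x => mul_nonneg hk.le (D.lam_nonneg x)
  sum := fun σ hσ => by
    refine (D.sum (σ * k) (by nlinarith)).congr fun x => ?_
    rw [mul_assoc]
  mero := fun x hx => by
    have h3 : MeromorphicAt Φ ((k : ℂ) * (x : ℂ)) := by
      have := D.mer (x := k * x) (mul_nonneg hk.le hx.1)
      push_cast at this
      exact this
    exact h3.comp_analyticAt (g := fun w : ℂ => (k : ℂ) * w) (by fun_prop)
  eq := fun w hw => by
    have h1 : κ < ((k : ℂ) * w).re := by
      rw [Complex.re_ofReal_mul]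
      nlinarith
    rw [D.eq _ h1]
    congr 1
    unfold ser
    refine tsum_congr fun x => ?_
    push_cast
    ring_nf

/-- the real zeros minus the real poles in the positive half-axis -/
noncomputable def gexc (Φ : ℂ → ℂ) : ℤ :=
  ∑ᶠ x ∈ Ioi (0 : ℝ), (meromorphicOrderAt Φ (x : ℂ)).untop₀

theorem GD.exc_scale (D : GD κ lam c Φ) {k : ℝ} (hk : 0 < k) (hkκ : κ ≤ k) :
    (∑ᶠ x ∈ Ioc (0 : ℝ) 1, (meromorphicOrderAt (fun w => Φ (k * w)) (x : ℂ)).untop₀) = gexc Φ := by
  have e1 : (∑ᶠ x ∈ Ioc (0 : ℝ) 1, (meromorphicOrderAt (fun w => Φ (k * w)) (x : ℂ)).untop₀) =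
      ∑ᶠ x ∈ Ioc (0 : ℝ) 1, (meromorphicOrderAt Φ ((k * x : ℝ) : ℂ)).untop₀ := by
    refine finsum_mem_congr rfl fun x _ => ?_
    rw [order_scale Φ hk.ne']
    push_cast
    rfl
  have e2 : gexc Φ = ∑ᶠ x ∈ Ioc (0 : ℝ) k, (meromorphicOrderAt Φ (x : ℂ)).untop₀ := by
    unfold gexc
    refine finsum_mem_inter_support_eq' _ _ _ fun σ hσ => ?_
    rw [Function.mem_support] at hσ
    constructor
    · intro h2
      refine ⟨h2, ?_⟩
      by_contra h3
      push Not at h3
      rw [D.order_right (by rw [Complex.ofReal_re]; linarith)] at hσ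
      simp at hσ
    · exact fun h => h.1
  rw [e1, e2]
  have e3 : Ioc (0 : ℝ) k = (fun x : ℝ => k * x) '' Ioc (0 : ℝ) 1 := by
    ext x
    constructor
    · rintro ⟨h1, h2⟩
      exact ⟨x / k, ⟨by positivity, (div_le_one hk).2 h2⟩, by field_simp⟩
    · rintro ⟨y, ⟨h1, h2⟩, rfl⟩
      exact ⟨mul_pos hk h1, by
        show k * y ≤ k
        nlinarith⟩
  rw [e3, finsum_mem_image ((mul_right_injective₀ hk.ne').injOn)]

/-! ### The finite sums -/

/-- the finite sum over `λ_x ≤ exp (θ T)` -/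
noncomputable def gsum (lam c : ι → ℝ) (θ γ T : ℝ) : ℂ :=
  ∑' x, if lam x ≤ Real.exp (θ * T) then
    (c x : ℂ) * exp ((γ * (lam x / T) : ℝ) * I) * (om (lam x / T) : ℂ) else 0

lemma om_nonneg {u : ℝ} (hu : 0 ≤ u) : 0 ≤ om u := by
  unfold om
  exact inv_nonneg.2 (Real.Gamma_pos_of_pos (by linarith)).le

lemma norm_term (γ : ℝ) (x : ι) (T : ℝ) (hT : 0 < T) (hl : 0 ≤ lam x) :
    ‖(c x : ℂ) * exp ((γ * (lam x / T) : ℝ) * I) * (om (lam x / T) : ℂ)‖ =
      |c x| * om (lam x / T) := by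
  rw [norm_mul, norm_mul, Complex.norm_exp_ofReal_mul_I, mul_one, Complex.norm_real,
    Complex.norm_real, Real.norm_eq_abs, Real.norm_eq_abs,
    abs_of_nonneg (om_nonneg (div_nonneg hl hT.le))]

theorem GD.summable_term (D : GD κ lam c Φ) (γ : ℝ) {T : ℝ} (hT : 0 < T) :
    Summable fun x => ‖(c x : ℂ) * exp ((γ * (lam x / T) : ℝ) * I) * (om (lam x / T) : ℂ)‖ := by
  set σ : ℝ := |κ| + 1 with hσ
  have h1 : κ < σ := by linarith [le_abs_self κ]
  have h0 : 0 ≤ σ := by positivity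
  refine Summable.of_nonneg_of_le (fun x => norm_nonneg _) (fun x => ?_)
    ((D.sum σ h1).mul_left (Real.exp (Real.exp (σ * T)) + 1))
  rw [norm_term γ x T hT (D.lam_nonneg x)]
  have h2 := om_le (a := σ * T) (by positivity) (div_nonneg (D.lam_nonneg x) hT.le)
  have h3 : σ * T * (lam x / T) = σ * lam x := by field_simp
  rw [h3] at h2
  calc |c x| * om (lam x / T) ≤ |c x| *
        ((Real.exp (Real.exp (σ * T)) + 1) * Real.exp (-(σ * lam x))) :=
        mul_le_mul_of_nonneg_left h2 (abs_nonneg _)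
    _ = _ := by ring

theorem GD.gsum_sub (D : GD κ lam c Φ) (γ : ℝ) {θ : ℝ} (hθ : κ < θ) (hθ0 : 0 < θ) :
    ∃ C T₀ : ℝ, 0 ≤ C ∧ 1 ≤ T₀ ∧ ∀ T ≥ T₀,
      ‖gsum lam c θ γ T - cmean lam c γ T‖ ≤ C / T := by
  set κ₀ : ℝ := max κ 0 with hκ₀
  have hκθ : κ₀ < θ := max_lt hθ hθ0
  have hκ00 : 0 ≤ κ₀ := le_max_right _ _
  have hκκ : κ ≤ κ₀ := le_max_left _ _
  set δ : ℝ := (θ - κ₀) / 3 with hδ
  have hδ0 : 0 < δ := by rw [hδ]; linarith
  set σ₁ : ℝ := κ₀ + δ with hσ₁
  set σ₂ : ℝ := κ₀ + 2 * δ with hσ₂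
  have hθσ : θ = σ₂ + δ := by rw [hσ₂, hδ]; ring
  have hσ₂0 : 0 ≤ σ₂ := by positivity
  set S : ℝ := ∑' x : ι, |c x| * Real.exp (-(σ₁ * lam x)) with hS
  have hSs := D.sum σ₁ (by linarith)
  have hS0 : 0 ≤ S := tsum_nonneg fun x => by positivity
  refine ⟨4 / (δ * θ) * S, max 1 (Real.log (2 / δ) / δ), by positivity, le_max_left _ _,
    fun T hT => ?_⟩
  have hT1 : 1 ≤ T := (le_max_left _ _).trans hT
  have hT0 : 0 < T := by linarith
  have hT2 : Real.log (2 / δ) ≤ δ * T := by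
    have := (le_max_right _ _).trans hT
    rw [div_le_iff₀ hδ0] at this
    linarith
  set B : ℝ := (Real.exp (Real.exp (σ₂ * T)) + 1) * Real.exp (-(δ * Real.exp (θ * T))) with hB
  have hB0 : 0 ≤ B := by positivity
  -- the difference
  have h1 : gsum lam c θ γ T - cmean lam c γ T = ∑' x : ι,
      (if lam x ≤ Real.exp (θ * T) then (0 : ℂ) else
        -((c x : ℂ) * exp ((γ * (lam x / T) : ℝ) * I) * (om (lam x / T) : ℂ))) := by
    unfold gsum cmean
    have hs := D.summable_term γ hT0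
    rw [← Summable.tsum_sub]
    · refine tsum_congr fun x => ?_
      split_ifs <;> ring
    · refine Summable.of_norm_bounded hs fun x => ?_
      split_ifs
      · exact le_rfl
      · rw [norm_zero]; exact norm_nonneg _
    · exact hs.of_norm
  have h2 : ‖gsum lam c θ γ T - cmean lam c γ T‖ ≤ B * S := by
    rw [h1, hS, ← tsum_mul_left]
    refine tsum_of_norm_bounded (hSs.mul_left B).hasSum fun x => ?_
    split_ifs with hx
    · rw [norm_zero]
      exact mul_nonneg hB0 (mul_nonneg (abs_nonneg _) (Real.exp_pos _).le)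
    · rw [norm_neg, norm_term γ x T hT0 (D.lam_nonneg x)]
      push Not at hx
      have h3 := om_le (a := σ₂ * T) (by positivity) (div_nonneg (D.lam_nonneg x) hT0.le)
      have h4 : σ₂ * T * (lam x / T) = σ₂ * lam x := by field_simp
      rw [h4] at h3
      have h5 : Real.exp (-(σ₂ * lam x)) ≤
          Real.exp (-(δ * Real.exp (θ * T))) * Real.exp (-(σ₁ * lam x)) := by
        rw [← Real.exp_add]
        apply Real.exp_le_exp.2
        have h6 : σ₂ * lam x = δ * lam x + σ₁ * lam x := by rw [hσ₂, hσ₁]; ring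
        have h7 : δ * Real.exp (θ * T) ≤ δ * lam x := mul_le_mul_of_nonneg_left hx.le hδ0.le
        linarith
      calc |c x| * om (lam x / T) ≤ |c x| *
            ((Real.exp (Real.exp (σ₂ * T)) + 1) * (Real.exp (-(δ * Real.exp (θ * T))) *
              Real.exp (-(σ₁ * lam x)))) := by
            refine mul_le_mul_of_nonneg_left (h3.trans ?_) (abs_nonneg _)
            exact mul_le_mul_of_nonneg_left h5 (by positivity)
        _ = B * (|c x| * Real.exp (-(σ₁ * lam x))) := by rw [hB]; ring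
  refine h2.trans ?_
  have h3 : B ≤ 4 / (δ * θ) / T := by
    have e1 : Real.exp (σ₂ * T) ≤ δ / 2 * Real.exp (θ * T) := by
      have h4 : 2 / δ ≤ Real.exp (δ * T) := by
        calc 2 / δ = Real.exp (Real.log (2 / δ)) := (Real.exp_log (by positivity)).symm
          _ ≤ _ := Real.exp_le_exp.2 hT2
      have h7 : Real.exp (θ * T) = Real.exp (σ₂ * T) * Real.exp (δ * T) := by
        rw [← Real.exp_add, hθσ]; congr 1; ring
      rw [h7]
      have h8 : 1 ≤ δ / 2 * Real.exp (δ * T) := by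
        calc (1 : ℝ) = δ / 2 * (2 / δ) := by field_simp
          _ ≤ _ := mul_le_mul_of_nonneg_left h4 (by positivity)
      have h9 := Real.exp_pos (σ₂ * T)
      nlinarith
    have e2 : B ≤ 2 * Real.exp (-(δ / 2 * Real.exp (θ * T))) := by
      have h5 : Real.exp (Real.exp (σ₂ * T)) + 1 ≤ 2 * Real.exp (δ / 2 * Real.exp (θ * T)) := by
        have h6 := Real.exp_le_exp.2 e1
        have h7 : (1 : ℝ) ≤ Real.exp (δ / 2 * Real.exp (θ * T)) := Real.one_le_exp (by positivity)
        linarith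
      rw [hB]
      calc _ ≤ 2 * Real.exp (δ / 2 * Real.exp (θ * T)) * Real.exp (-(δ * Real.exp (θ * T))) := by
            gcongr
        _ = 2 * Real.exp (-(δ / 2 * Real.exp (θ * T))) := by
          rw [mul_assoc, ← Real.exp_add]
          congr 2
          ring
    refine e2.trans ?_
    have e3 : δ / 2 * (θ * T) ≤ Real.exp (δ / 2 * Real.exp (θ * T)) := by
      have h5 := Real.add_one_le_exp (θ * T)
      have h6 := Real.add_one_le_exp (δ / 2 * Real.exp (θ * T))
      have h7 : δ / 2 * (θ * T) ≤ δ / 2 * Real.exp (θ * T) :=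
        mul_le_mul_of_nonneg_left (by linarith) (by positivity)
      linarith
    rw [Real.exp_neg, ← div_eq_mul_inv]
    have h8 : 0 < δ / 2 * (θ * T) := by positivity
    refine (div_le_div_of_nonneg_left (by norm_num) h8 e3).trans (le_of_eq ?_)
    field_simp
    norm_num
  calc B * S ≤ 4 / (δ * θ) / T * S := mul_le_mul_of_nonneg_right h3 hS0
    _ = 4 / (δ * θ) * S / T := by ring

/-- **the law for the finite sums** -/
theorem GD.law [Countable ι] (D : GD κ lam c Φ) : ∃ (m : ℤ) (l : ℝ), l ≠ 0 ∧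
    meromorphicOrderAt Φ 0 = m ∧ meromorphicTrailingCoeffAt Φ 0 = l ∧
    exp (Real.log |l| - Real.pi * gexc Φ * I) = l ∧
    ∀ γ θ : ℝ, Real.pi / 2 < γ → κ < θ → 0 < θ →
      Law (gsum lam c θ γ) m (Real.log |l| - Real.pi * gexc Φ * I) (Lam γ) := by
  set k : ℝ := |κ| + 1 with hk
  have hk0 : 0 < k := by positivity
  have hkκ : κ ≤ k := by linarith [le_abs_self κ]
  have hkc : (k : ℂ) ≠ 0 := by exact_mod_cast hk0.ne'
  have M := D.mdata hk0 hkκ
  have htop := M.order_ne_top (x := 0) ⟨le_rfl, by norm_num⟩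
  rw [Complex.ofReal_zero, order_scale Φ hk0.ne', mul_zero] at htop
  obtain ⟨m, hm⟩ := WithTop.ne_top_iff_exists.1 htop
  have hm1 : meromorphicOrderAt (fun w => Φ (k * w)) 0 = m := by
    rw [order_scale Φ hk0.ne', mul_zero]
    exact hm.symm
  have hmer0 : MeromorphicAt Φ 0 := by
    have := D.mer (x := 0) le_rfl
    simpa using this
  have hcs := coeff_scale hk0.ne' hmer0 hm.symm
  -- the law with the constant of the contour theorem
  have key0 : ∀ γ : ℝ, Real.pi / 2 < γ → ∃ (r₀ : ℂ) (C T₀ : ℝ),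
      exp r₀ = meromorphicTrailingCoeffAt Φ 0 ∧ r₀.im = -Real.pi * ((gexc Φ : ℤ) : ℝ) ∧ 0 ≤ C ∧
      1 ≤ T₀ ∧ ∀ T ≥ T₀, ‖cmean lam c γ T - (r₀ - m * (Real.log T - Lam γ))‖ ≤ C / T := by
    intro γ hγ
    obtain ⟨r₁, C, T₀, h1, h2, h3, h4, h5⟩ := mdata_rot M hm1 hγ
    rw [D.exc_scale hk0 hkκ] at h2
    refine ⟨r₁ - m * Real.log k, C / k, max T₀ (T₀ / k), ?_, ?_, by positivity,
      h4.trans (le_max_left _ _), fun T hT => ?_⟩
    · rw [Complex.exp_sub, h1, hcs, Complex.exp_int_mul, ← Complex.ofReal_exp, Real.exp_log hk0]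
      have := zpow_ne_zero m hkc
      field_simp
    · rw [Complex.sub_im, h2]
      simp
    · have hT0 : 0 < T := by linarith [h4.trans ((le_max_left _ _).trans hT)]
      have h6 : T₀ ≤ k * T := by
        have := (le_max_right _ _).trans hT
        rw [div_le_iff₀ hk0] at this
        linarith
      have h7 := h5 (k * T) h6
      have h8 : cmean (fun x => k * lam x) c γ (k * T) = cmean lam c γ T := by
        unfold cmean
        refine tsum_congr fun x => ?_
        rw [mul_div_mul_left _ _ hk0.ne']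
      rw [h8, Real.log_mul hk0.ne' hT0.ne'] at h7
      calc _ = ‖-cmean lam c γ T - (m * (((Real.log k + Real.log T : ℝ) : ℂ) - Lam γ) - r₁)‖ := by
            rw [← norm_neg]
            congr 1
            push_cast
            ring
        _ ≤ C / (k * T) := h7
        _ = C / k / T := by rw [div_div]
  have key : ∀ r₀ : ℂ, exp r₀ = meromorphicTrailingCoeffAt Φ 0 →
      r₀.im = -Real.pi * ((gexc Φ : ℤ) : ℝ) →
      meromorphicTrailingCoeffAt Φ 0 = ((meromorphicTrailingCoeffAt Φ 0).re : ℂ) ∧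
      (meromorphicTrailingCoeffAt Φ 0).re ≠ 0 ∧
      r₀ = Real.log |(meromorphicTrailingCoeffAt Φ 0).re| - Real.pi * gexc Φ * I := by
    intro r₀ hr hi
    set l : ℂ := meromorphicTrailingCoeffAt Φ 0 with hl
    have hl0 : l ≠ 0 := by rw [← hr]; exact Complex.exp_ne_zero _
    have hlr : l = (((-1 : ℝ) ^ (gexc Φ) * Real.exp r₀.re : ℝ) : ℂ) := by
      have h3 : r₀ = (r₀.re : ℂ) + (gexc Φ : ℂ) * (-(Real.pi * Complex.I)) := by
        apply Complex.ext
        · simp
        · rw [hi]; simp; ring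
      rw [← hr]
      nth_rewrite 1 [h3]
      rw [Complex.exp_add, Complex.exp_int_mul, Complex.exp_neg, Complex.exp_pi_mul_I]
      push_cast
      norm_num
      ring
    have hlre : l = ((l.re : ℝ) : ℂ) := by
      rw [hlr, Complex.ofReal_re]
    have hlabs : Real.log |l.re| = r₀.re := by
      have h3 : |l.re| = Real.exp r₀.re := by
        rw [hlr, Complex.ofReal_re, abs_mul, Real.abs_exp]
        have : |(-1 : ℝ) ^ (gexc Φ)| = 1 := by
          rw [abs_zpow]; simp
        rw [this, one_mul]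
      rw [h3, Real.log_exp]
    refine ⟨hlre, ?_, ?_⟩
    · intro h3
      rw [h3, Complex.ofReal_zero] at hlre
      exact hl0 hlre
    · rw [hlabs]
      apply Complex.ext
      · simp
      · rw [hi]; simp
  obtain ⟨r₁, -, -, hr1, hi1, -, -, -⟩ := key0 Real.pi (by linarith [Real.pi_pos])
  obtain ⟨k1, k2, k3⟩ := key r₁ hr1 hi1
  refine ⟨m, (meromorphicTrailingCoeffAt Φ 0).re, k2, hm.symm, k1, ?_, fun γ θ hγ hθ hθ0 => ?_⟩
  · rw [← k3, hr1, ← k1]
  obtain ⟨r₀, C, T₀, hr, hi, hC, hT₀, hT⟩ := key0 γ hγ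
  obtain ⟨-, -, k4⟩ := key r₀ hr hi
  obtain ⟨C', T₁, hC', hT₁, hT'⟩ := D.gsum_sub γ hθ hθ0
  rw [← k4]
  refine ⟨C + C', max T₀ T₁, by positivity, hT₀.trans (le_max_left _ _), fun T hT2 => ?_⟩
  have e1 := hT T ((le_max_left _ _).trans hT2)
  have e2 := hT' T ((le_max_right _ _).trans hT2)
  have e3 : gsum lam c θ γ T - (r₀ - m * (Real.log T - Lam γ)) =
      (gsum lam c θ γ T - cmean lam c γ T) +
      (cmean lam c γ T - (r₀ - m * (Real.log T - Lam γ))) := by ring
  rw [e3, add_div, add_comm (C / T)]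
  exact (norm_add_le _ _).trans (add_le_add e2 e1)

end Pool.Agent.R409.RD
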