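import Pool.Agent.R409.RD.Gen

/-!
# The value of a meromorphic function as the limit of the exponentials of the finite sums
-/

set_option autoImplicit false

namespace Pool.Agent.R409.RD

open Complex MeasureTheory Filter Topology Set
open Pool.Agent.R409.RC

variable {V : ℝ → ℂ} {m : ℤ} {r₀ Λ : ℂ} {F : ℂ → ℂ} {x : ℂ}

/-- `exp V(T)` tends to `b` if and only if `F → b` at the point. -/
theorem value_iff (h : Law V m r₀ Λ) (hF : MeromorphicAt F x) (hm : meromorphicOrderAt F x = m)
    (hl : exp r₀ = meromorphicTrailingCoeffAt F x) (b : ℂ) :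
    Tendsto F (𝓝[≠] x) (𝓝 b) ↔ Tendsto (fun T => exp (V T)) atTop (𝓝 b) := by
  have hexp := h.exp_form
  have hne : exp r₀ * exp (m * Λ) ≠ 0 := mul_ne_zero (Complex.exp_ne_zero _) (Complex.exp_ne_zero _)
  have hinf : (𝓝[≠] x).NeBot := inferInstance
  rcases lt_trichotomy m 0 with hm0 | hm0 | hm0
  · -- a pole
    have hFn : ¬ Tendsto F (𝓝[≠] x) (𝓝 b) := by
      intro h1
      have h2 := tendsto_cobounded_of_meromorphicOrderAt_neg (f := F) (x := x) (by
        rw [hm]; exact_mod_cast hm0)
      rw [← tendsto_norm_atTop_iff_cobounded] at h2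
      exact not_tendsto_nhds_of_tendsto_atTop h2 _ h1.norm
    have hVn : ¬ Tendsto (fun T => exp (V T)) atTop (𝓝 b) := by
      intro h1
      have h2 : Tendsto (fun T : ℝ => (T : ℂ) ^ m) atTop (𝓝 0) := by
        rw [tendsto_zero_iff_norm_tendsto_zero]
        refine (tendsto_zpow_atTop_zero (𝕜 := ℝ) hm0).congr' ?_
        filter_upwards [eventually_gt_atTop 0] with T hT
        rw [norm_zpow, Complex.norm_real, Real.norm_eq_abs, abs_of_pos hT]
      have h3 := h1.mul h2
      rw [mul_zero] at h3
      exact hne (tendsto_nhds_unique hexp h3)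
    exact iff_of_false hFn hVn
  · -- a unit
    subst hm0
    have h1 : Tendsto F (𝓝[≠] x) (𝓝 (exp r₀)) := by
      have := hF.tendsto_nhds_meromorphicTrailingCoeffAt
      rw [hm, ← hl] at this
      refine this.congr fun z => ?_
      simp
    have h2 : Tendsto (fun T => exp (V T)) atTop (𝓝 (exp r₀)) := by
      have := hexp
      simp only [zpow_zero, mul_one, Int.cast_zero, zero_mul, Complex.exp_zero] at this
      exact this
    constructor
    · intro h3
      rw [tendsto_nhds_unique h3 h1]
      exact h2
    · intro h3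
      rw [tendsto_nhds_unique h3 h2]
      exact h1
  · -- a zero
    have h1 : Tendsto F (𝓝[≠] x) (𝓝 0) := tendsto_zero_of_meromorphicOrderAt_pos (by
      rw [hm]; exact_mod_cast hm0)
    have h2 : Tendsto (fun T => exp (V T)) atTop (𝓝 0) := by
      have h3 : Tendsto (fun T : ℝ => (T : ℂ) ^ (-m)) atTop (𝓝 0) := by
        rw [tendsto_zero_iff_norm_tendsto_zero]
        refine (tendsto_zpow_atTop_zero (𝕜 := ℝ) (by omega : -m < 0)).congr' ?_
        filter_upwards [eventually_gt_atTop 0] with T hT
        rw [norm_zpow, Complex.norm_real, Real.norm_eq_abs, abs_of_pos hT]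
      have h4 := hexp.mul h3
      rw [mul_zero] at h4
      refine h4.congr' ?_
      filter_upwards [eventually_gt_atTop 0] with T hT
      have hTc : (T : ℂ) ≠ 0 := by exact_mod_cast hT.ne'
      rw [mul_assoc, ← zpow_add₀ hTc, add_neg_cancel, zpow_zero, mul_one]
    constructor
    · intro h3
      rw [tendsto_nhds_unique h3 h1]
      exact h2
    · intro h3
      rw [tendsto_nhds_unique h3 h2]
      exact h1

end Pool.Agent.R409.RD
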