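import Pool.Agent.R409.RD.Gen

/-!
# Euler products with real factors of any weight
-/

set_option autoImplicit false

namespace Pool.Agent.R409.RD

open Complex MeasureTheory Filter Topology Set
open Pool.Agent.W189.ML Pool.Agent.W189.LC Pool.Agent.W187.UR Pool.Agent.R409.RC

variable {P : Type} {N : ℕ} {w : ℝ} {q : P → ℝ} {α : P → Fin N → ℂ} {F : ℂ → ℂ}

/-- numerical data of an Euler product of weight `w` -/
structure WD (w : ℝ) (q : P → ℝ) (α : P → Fin N → ℂ) : Prop where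
  two_le : ∀ v, 2 ≤ q v
  sum : ∀ σ : ℝ, 1 < σ → Summable fun v => q v ^ (-σ)
  norm_le : ∀ v j, ‖α v j‖ ≤ q v ^ (w / 2)
  real : ∀ v, CI (α v)

/-- the normalised parameters -/
noncomputable def nrm (w : ℝ) (q : P → ℝ) (α : P → Fin N → ℂ) (v : P) (j : Fin N) : ℂ :=
  α v j * ((q v ^ (-((w + 1) / 2)) : ℝ) : ℂ)

theorem WD.ed (E : WD w q α) : ED q (nrm w q α) where
  two_le := E.two_le
  sum := E.sum
  norm_le := fun v j => by
    have hq : 0 < q v := by linarith [E.two_le v]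
    unfold nrm
    rw [norm_mul, Complex.norm_real, Real.norm_of_nonneg (Real.rpow_nonneg hq.le _)]
    calc ‖α v j‖ * q v ^ (-((w + 1) / 2)) ≤ q v ^ (w / 2) * q v ^ (-((w + 1) / 2)) :=
          mul_le_mul_of_nonneg_right (E.norm_le v j) (Real.rpow_nonneg hq.le _)
      _ = q v ^ (-(1 / 2) : ℝ) := by
          rw [← Real.rpow_add hq]
          congr 1
          ring
  real := fun v => (E.real v).mul_real (Complex.conj_ofReal _)

lemma WD.cP_eq (E : WD w q α) (x : P × ℕ) :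
    cP α x = cP (nrm w q α) x * ((Real.exp ((w + 1) / 2 * fr q x) : ℝ) : ℂ) := by
  have hq : 0 < q x.1 := by linarith [E.two_le x.1]
  have h1 : ((Real.exp ((w + 1) / 2 * fr q x) : ℝ) : ℂ) =
      ((q x.1 ^ ((w + 1) / 2) : ℝ) : ℂ) ^ (x.2 + 1) := by
    rw [← Complex.ofReal_pow]
    congr 1
    rw [← Real.rpow_natCast, ← Real.rpow_mul hq.le, Real.rpow_def_of_pos hq]
    unfold fr
    congr 1
    push_cast
    ring
  rw [h1]
  unfold cP nrm
  rw [div_mul_eq_mul_div, Finset.sum_mul]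
  congr 1
  refine Finset.sum_congr rfl fun j _ => ?_
  rw [← mul_pow, mul_assoc, ← Complex.ofReal_mul, ← Real.rpow_add hq]
  rw [show -((w + 1) / 2) + (w + 1) / 2 = 0 by ring, Real.rpow_zero, Complex.ofReal_one, mul_one]

lemma WD.cR_eq (E : WD w q α) (x : P × ℕ) : ((cR α x : ℝ) : ℂ) = cP α x := by
  unfold cR
  rw [E.cP_eq x, ← E.ed.cR_eq, ← Complex.ofReal_mul, Complex.ofReal_re]

lemma WD.cR_eq' (E : WD w q α) (x : P × ℕ) :
    cR α x = cR (nrm w q α) x * Real.exp ((w + 1) / 2 * fr q x) := by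
  have h1 := E.cR_eq x
  rw [E.cP_eq x, ← E.ed.cR_eq] at h1
  exact_mod_cast h1

/-- the data of the abstract law -/
theorem WD.gd (E : WD w q α) (hmer : ∀ x : ℝ, 0 ≤ x → x ≤ w / 2 + 1 → MeromorphicAt F (x : ℂ))
    (hF : ∀ s : ℂ, w / 2 + 1 < s.re → F s = ∏' v, ∏ j, (1 - α v j * (q v : ℂ) ^ (-s))⁻¹) :
    GD (w / 2 + 1) (fr q) (cR α) F where
  lam_nonneg := E.ed.fr_nonneg
  sum := fun σ hσ => by
    refine (E.ed.summable (σ := σ - (w + 1) / 2) (by linarith)).congr fun x => ?_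
    rw [E.cR_eq', abs_mul, abs_of_pos (Real.exp_pos _), mul_assoc, ← Real.exp_add]
    congr 2
    ring
  mero := hmer
  eq := fun s hs => by
    have h1 : 1 / 2 < (s - (((w + 1) / 2 : ℝ) : ℂ)).re := by
      rw [Complex.sub_re, Complex.ofReal_re]
      linarith
    have h2 := (E.ed.hasProd h1).tprod_eq
    rw [hF s hs]
    have h3 : ser (fr q) (cR α) s =
        ser (fr q) (cR (nrm w q α)) (s - (((w + 1) / 2 : ℝ) : ℂ)) := by
      unfold ser
      refine tsum_congr fun x => ?_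
      rw [E.cR_eq']
      push_cast
      rw [mul_assoc, ← Complex.exp_add]
      congr 2
      ring
    rw [h3, ← h2]
    refine tprod_congr fun v => Finset.prod_congr rfl fun j _ => ?_
    have hq : 0 < q v := by linarith [E.two_le v]
    have hqc : (q v : ℂ) ≠ 0 := by exact_mod_cast hq.ne'
    unfold nrm
    rw [mul_assoc, Complex.ofReal_cpow hq.le, ← Complex.cpow_add _ _ hqc]
    congr 4
    push_cast
    ring

/-- the finite sum as a sum over the prime powers `q_v^k ≤ exp (exp (θ T))` -/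
theorem WD.gsum_eq (E : WD w q α) (θ γ T : ℝ) : gsum (fr q) (cR α) θ γ T =
    ∑ᶠ x ∈ {x : P × ℕ | 1 ≤ x.2 ∧ q x.1 ^ x.2 ≤ Real.exp (Real.exp (θ * T))},
      pterm q α γ T x.1 x.2 := by
  have hset : {x : P × ℕ | 1 ≤ x.2 ∧ q x.1 ^ x.2 ≤ Real.exp (Real.exp (θ * T))} =
      (fun x : P × ℕ => (x.1, x.2 + 1)) '' {x | fr q x ≤ Real.exp (θ * T)} := by
    ext ⟨v, k⟩
    simp only [Set.mem_setOf_eq, Set.mem_image, Prod.mk.injEq, Prod.exists]
    have hlog : ∀ k : ℕ, q v ^ k ≤ Real.exp (Real.exp (θ * T)) ↔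
        (k : ℝ) * Real.log (q v) ≤ Real.exp (θ * T) := by
      intro k
      rw [← Real.log_le_iff_le_exp (pow_pos (E.ed.q_pos v) k), Real.log_pow]
    constructor
    · rintro ⟨h1, h2⟩
      refine ⟨v, k - 1, ?_, rfl, by omega⟩
      unfold fr
      simp only
      have : ((k - 1 : ℕ) : ℝ) + 1 = k := by
        rw [Nat.cast_sub h1]
        push_cast
        ring
      rw [this]
      exact (hlog k).1 h2
    · rintro ⟨v', k', h1, rfl, rfl⟩
      refine ⟨by omega, (hlog _).2 ?_⟩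
      push_cast
      exact h1
  rw [hset, finsum_mem_image]
  · have h1 : ∀ x : P × ℕ, pterm q α γ T (x.1, x.2 + 1).1 (x.1, x.2 + 1).2 =
        (cR α x : ℂ) * exp ((γ * (fr q x / T) : ℝ) * I) * (om (fr q x / T) : ℂ) := by
      intro x
      rw [E.cR_eq]
      unfold pterm cP fr
      push_cast
      rfl
    simp only [h1]
    unfold gsum
    rw [tsum_eq_finsum]
    · refine finsum_congr fun x => ?_
      rw [Set.mem_setOf_eq]
      by_cases hx : fr q x ≤ Real.exp (θ * T)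
      · rw [if_pos hx, finsum_eq_if, if_pos hx]
      · rw [if_neg hx, finsum_eq_if, if_neg hx]
    · refine (E.ed.finite_fr (Real.exp (θ * T))).subset fun x hx => ?_
      rw [Function.mem_support] at hx
      show fr q x ≤ Real.exp (θ * T)
      by_contra h
      rw [if_neg h] at hx
      exact hx rfl
  · rintro ⟨v, k⟩ _ ⟨v', k'⟩ _ h
    simp only [Prod.mk.injEq] at h ⊢
    exact ⟨h.1, by omega⟩

end Pool.Agent.R409.RD
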