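import Pool.Agent.R409.RD.Lim
import Pool.Agent.R409.RD.Wt

/-!
# The law at any real point
-/

set_option autoImplicit false

namespace Pool.Agent.R409.RD

open Complex MeasureTheory Filter Topology Set
open Pool.Agent.W189.ML Pool.Agent.W189.LC Pool.Agent.W187.UR Pool.Agent.R409.RC

variable {P : Type} {N : ℕ} {w : ℝ} {q : P → ℝ} {α : P → Fin N → ℂ} {F : ℂ → ℂ}

/-- the parameters shifted to the point `s₀` -/
noncomputable def shp (s₀ : ℝ) (q : P → ℝ) (α : P → Fin N → ℂ) (v : P) (j : Fin N) : ℂ :=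
  α v j * ((q v ^ (-s₀) : ℝ) : ℂ)

theorem WD.shift (E : WD w q α) (s₀ : ℝ) : WD (w - 2 * s₀) q (shp s₀ q α) where
  two_le := E.two_le
  sum := E.sum
  norm_le := fun v j => by
    have hq : 0 < q v := by linarith [E.two_le v]
    unfold shp
    rw [norm_mul, Complex.norm_real, Real.norm_of_nonneg (Real.rpow_nonneg hq.le _)]
    calc ‖α v j‖ * q v ^ (-s₀) ≤ q v ^ (w / 2) * q v ^ (-s₀) :=
          mul_le_mul_of_nonneg_right (E.norm_le v j) (Real.rpow_nonneg hq.le _)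
      _ = q v ^ ((w - 2 * s₀) / 2) := by
          rw [← Real.rpow_add hq]
          congr 1
          ring
  real := fun v => (E.real v).mul_real (Complex.conj_ofReal _)

/-- the real zeros minus the real poles to the right of `s₀` -/
noncomputable def excAt (s₀ : ℝ) (F : ℂ → ℂ) : ℤ :=
  ∑ᶠ σ ∈ Ioi s₀, (meromorphicOrderAt F (σ : ℂ)).untop₀

lemma gexc_shift (s₀ : ℝ) (F : ℂ → ℂ) : gexc (fun s => F (s₀ + s)) = excAt s₀ F := by
  unfold gexc excAt
  have e1 : (∑ᶠ x ∈ Ioi (0 : ℝ), (meromorphicOrderAt (fun s => F (s₀ + s)) (x : ℂ)).untop₀) =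
      ∑ᶠ x ∈ Ioi (0 : ℝ), (meromorphicOrderAt F ((s₀ + x : ℝ) : ℂ)).untop₀ := by
    refine finsum_mem_congr rfl fun x _ => ?_
    rw [order_shift']
    push_cast
    rfl
  have e3 : Ioi s₀ = (fun x : ℝ => s₀ + x) '' Ioi (0 : ℝ) := by
    rw [Set.image_const_add_Ioi, add_zero]
  rw [e1, e3, finsum_mem_image ((add_right_injective s₀).injOn)]

/-- **the law at the point `s₀`** -/
theorem WD.law_at [Countable P] (E : WD w q α) (s₀ : ℝ)
    (hmer : ∀ x : ℝ, s₀ ≤ x → x ≤ w / 2 + 1 → MeromorphicAt F (x : ℂ))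
    (hF : ∀ s : ℂ, w / 2 + 1 < s.re → F s = ∏' v, ∏ j, (1 - α v j * (q v : ℂ) ^ (-s))⁻¹) :
    ∃ (m : ℤ) (l : ℝ), l ≠ 0 ∧ MeromorphicAt F (s₀ : ℂ) ∧
      meromorphicOrderAt F (s₀ : ℂ) = m ∧ meromorphicTrailingCoeffAt F (s₀ : ℂ) = l ∧
      exp (Real.log |l| - Real.pi * excAt s₀ F * I) = l ∧
      ∀ γ θ : ℝ, Real.pi / 2 < γ → w / 2 + 1 - s₀ < θ → 0 < θ →
        Law (fun T => ∑ᶠ x ∈ {x : P × ℕ | 1 ≤ x.2 ∧ q x.1 ^ x.2 ≤ Real.exp (Real.exp (θ * T))},
          pterm q (shp s₀ q α) γ T x.1 x.2) m (Real.log |l| - Real.pi * excAt s₀ F * I) (Lam γ) := by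
  have E' := E.shift s₀
  set Φ : ℂ → ℂ := fun s => F (s₀ + s) with hΦ
  have hmer' : ∀ x : ℝ, 0 ≤ x → x ≤ (w - 2 * s₀) / 2 + 1 → MeromorphicAt Φ (x : ℂ) := by
    intro x h0 h1
    have h3 : MeromorphicAt F ((s₀ : ℂ) + (x : ℂ)) := by
      have := hmer (s₀ + x) (by linarith) (by linarith)
      push_cast at this
      exact this
    exact h3.comp_analyticAt (g := fun w : ℂ => (s₀ : ℂ) + w) (by fun_prop)
  have hF' : ∀ s : ℂ, (w - 2 * s₀) / 2 + 1 < s.re →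
      Φ s = ∏' v, ∏ j, (1 - shp s₀ q α v j * (q v : ℂ) ^ (-s))⁻¹ := by
    intro s hs
    rw [hΦ]
    simp only
    rw [hF (s₀ + s) (by
      rw [Complex.add_re, Complex.ofReal_re]
      linarith)]
    refine tprod_congr fun v => Finset.prod_congr rfl fun j _ => ?_
    have hq : 0 < q v := by linarith [E.two_le v]
    have hqc : (q v : ℂ) ≠ 0 := by exact_mod_cast hq.ne'
    unfold shp
    rw [mul_assoc, Complex.ofReal_cpow hq.le, ← Complex.cpow_add _ _ hqc]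
    congr 4
    push_cast
    ring
  have D := E'.gd hmer' hF'
  obtain ⟨m, l, hl, hm, hlc, hexp, hlaw⟩ := D.law
  have hmF : MeromorphicAt F (s₀ : ℂ) := by
    by_cases h : s₀ ≤ w / 2 + 1
    · exact hmer s₀ le_rfl h
    · have h1 := (D.analytic (w := 0) (by
        rw [Complex.zero_re]
        push Not at h
        linarith)).meromorphicAt
      have h2 : F = fun s => Φ (s - s₀) := by
        funext s
        rw [hΦ]
        simp
      rw [h2]
      refine MeromorphicAt.comp_analyticAt (f := Φ) (g := fun w : ℂ => w - (s₀ : ℂ)) ?_ (by fun_prop)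
      simpa using h1
  rw [hΦ, order_shift', add_zero] at hm
  rw [hΦ, coeff_shift'] at hlc
  rw [hΦ, gexc_shift] at hexp hlaw
  refine ⟨m, l, hl, hmF, hm, hlc, hexp, fun γ θ hγ hθ hθ0 => ?_⟩
  have h1 := hlaw γ θ hγ (by linarith) hθ0
  have h2 : gsum (fr q) (cR (shp s₀ q α)) θ γ = fun T =>
      ∑ᶠ x ∈ {x : P × ℕ | 1 ≤ x.2 ∧ q x.1 ^ x.2 ≤ Real.exp (Real.exp (θ * T))},
        pterm q (shp s₀ q α) γ T x.1 x.2 := by
    funext T
    exact E'.gsum_eq θ γ T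
  rw [h2] at h1
  exact h1

end Pool.Agent.R409.RD
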